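import Pool.Agent.N718.DC.Stm
import Pool.Agent.H373R2.T7.LamMaj

/-!
# Project DC: Siegel-Walfisz for `log p` in intervals
-/

set_option autoImplicit false

namespace Pool.Agent.N75.DC

open Finset
open Pool.Agent.N718.DC

/-- sums over intervals of functions which vanish at the nonpositive integers -/
theorem tele (g : ℤ → ℝ) (hg : ∀ n, n ≤ 0 → g n = 0) (u v : ℤ) (huv : u ≤ v) :
    ∑ n ∈ Ioc u v, g n =
      ∑ n ∈ Icc 1 v.toNat, g (n : ℤ) - ∑ n ∈ Icc 1 u.toNat, g (n : ℤ) := by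
  have h1 : ∀ y : ℕ, ∑ n ∈ Icc 1 y, g (n : ℤ) = ∑ n ∈ Ioc (0 : ℤ) y, g n := by
    intro y
    refine Finset.sum_nbij' (fun n : ℕ => (n : ℤ)) (fun n : ℤ => n.toNat) ?_ ?_ ?_ ?_ ?_
    · intro a ha
      simp only [mem_Icc, mem_Ioc] at ha ⊢
      omega
    · intro a ha
      simp only [mem_Icc, mem_Ioc] at ha ⊢
      omega
    · intro a _
      simp
    · intro a ha
      simp only [mem_Ioc] at ha
      show ((a.toNat : ℕ) : ℤ) = a
      omega
    · intro a _
      rfl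
  rw [h1, h1]
  have h2 : ∑ n ∈ Ioc u v, g n = ∑ n ∈ Ioc ((u.toNat : ℕ) : ℤ) ((v.toNat : ℕ) : ℤ), g n := by
    symm
    apply Finset.sum_subset
    · intro x hx
      simp only [mem_Ioc] at hx ⊢
      omega
    · intro x hx hx2
      simp only [mem_Ioc] at hx hx2
      exact hg x (by omega)
  have h3 : Ioc (0 : ℤ) ((v.toNat : ℕ) : ℤ) =
      Ioc (0 : ℤ) ((u.toNat : ℕ) : ℤ) ∪ Ioc ((u.toNat : ℕ) : ℤ) ((v.toNat : ℕ) : ℤ) := by
    ext x
    simp only [mem_Ioc, mem_union]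
    omega
  have h4 : Disjoint (Ioc (0 : ℤ) ((u.toNat : ℕ) : ℤ))
      (Ioc ((u.toNat : ℕ) : ℤ) ((v.toNat : ℕ) : ℤ)) := by
    rw [Finset.disjoint_left]
    intro x hx hx2
    simp only [mem_Ioc] at hx hx2
    omega
  rw [h2, h3, sum_union h4]
  ring

/-- prime powers -/
theorem pp (X y : ℕ) (hX : 1 ≤ X) (hy : y ≤ X) :
    ∑ n ∈ (Icc 1 y).filter (fun n => ¬ n.Prime), ArithmeticFunction.vonMangoldt n ≤
      2 * Real.sqrt X * Real.log X := by
  have h1 := Chebyshev.psi_sub_theta_le (x := (X : ℝ)) (by exact_mod_cast hX)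
  rw [Chebyshev.psi_sub_theta_eq_sum_not_prime, Nat.floor_natCast] at h1
  refine le_trans ?_ h1
  apply Finset.sum_le_sum_of_subset_of_nonneg
  · intro n hn
    simp only [mem_filter, mem_Icc, mem_Ioc] at hn ⊢
    exact ⟨⟨by omega, by omega⟩, hn.2⟩
  · intro n _ _
    exact ArithmeticFunction.vonMangoldt_nonneg

theorem lam_nat (n : ℕ) (hn : 1 ≤ n) : lam (n : ℤ) = if n.Prime then Real.log n else 0 := by
  unfold lam
  have h1 : (0 : ℤ) < n := by omega
  simp only [h1, Int.natAbs_natCast, true_and, Int.cast_natCast]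

theorem sw_ : S_SW := by
  intro κ A
  obtain ⟨N0, h0⟩ := Pool.Agent.H373R2.T7.lam_ap κ (A + 1)
  obtain ⟨n1, h1⟩ := Pool.Agent.H373R2.T7.ev_log' (A + 1) 8
  obtain ⟨n2, h2⟩ := Pool.Agent.H373R2.T7.ev_L' 4
  refine ⟨max (max N0 n1) (max n2 3), fun X hX Q hQ hQX c hc u v hu huv hv => ?_⟩
  have hX0 : N0 ≤ X := le_trans (le_trans (le_max_left _ _) (le_max_left _ _)) hX
  have hX1 := h1 X (le_trans (le_trans (le_max_right _ _) (le_max_left _ _)) hX)
  have hX2 := h2 X (le_trans (le_trans (le_max_left _ _) (le_max_right _ _)) hX)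
  have hX3 : 3 ≤ X := le_trans (le_trans (le_max_right _ _) (le_max_right _ _)) hX
  have hXr : (3 : ℝ) ≤ X := by exact_mod_cast hX3
  set ℓ : ℝ := Real.log X with hℓ
  have hℓ4 : 4 ≤ ℓ := hX2
  -- the residue
  set c' : ℕ := (c % (Q : ℤ)).toNat with hc'
  have hQ0 : (0 : ℤ) < Q := by omega
  have hc'c : (c' : ℤ) = c % (Q : ℤ) := Int.toNat_of_nonneg (Int.emod_nonneg _ (by omega))
  have hcop : c'.Coprime Q := by
    have h3 : IsCoprime (c' : ℤ) (Q : ℤ) := by
      rw [hc'c, Int.emod_def]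
      have := (IsCoprime.sub_mul_right_left_iff (x := c) (y := (Q : ℤ)) (z := c / Q)).2 hc
      rwa [mul_comm] at this
    exact Nat.isCoprime_iff_coprime.1 h3
  have hiff : ∀ n : ℕ, (Q : ℤ) ∣ (n : ℤ) - c ↔ n ≡ c' [MOD Q] := by
    intro n
    rw [← Int.natCast_modEq_iff, hc'c, Int.modEq_comm, Int.modEq_iff_dvd, Int.emod_def]
    constructor
    · intro h
      have : (n : ℤ) - (c - Q * (c / Q)) = (n - c) + Q * (c / Q) := by ring
      rw [this]
      exact dvd_add h (Dvd.intro _ rfl)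
    · intro h
      have : (n : ℤ) - c = ((n : ℤ) - (c - Q * (c / Q))) - Q * (c / Q) := by ring
      rw [this]
      exact dvd_sub h (Dvd.intro _ rfl)
  -- one sum
  set T : ℕ → ℝ := fun y => ∑ n ∈ Icc 1 y, (if (Q : ℤ) ∣ (n : ℤ) - c then lam (n : ℤ) else 0)
    with hT
  have key : ∀ y : ℕ, y ≤ X → |T y - (y : ℝ) / (Nat.totient Q : ℝ)| ≤
      X / ℓ ^ (A + 1) + 2 * Real.sqrt X * ℓ := by
    intro y hy
    have h3 := h0 X hX0 Q hQ hQX c' y hy
    rw [if_pos hcop] at h3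
    set Ψ : ℝ := ∑ n ∈ (Icc 1 y).filter (fun n => n ≡ c' [MOD Q]),
      ArithmeticFunction.vonMangoldt n with hΨ
    have h4 : Ψ - T y = ∑ n ∈ (Icc 1 y).filter (fun n => ¬ n.Prime),
        (if n ≡ c' [MOD Q] then ArithmeticFunction.vonMangoldt n else 0) := by
      rw [hΨ, hT, sum_filter, sum_filter, ← sum_sub_distrib]
      refine sum_congr rfl fun n hn => ?_
      rw [mem_Icc] at hn
      rw [lam_nat n hn.1]
      by_cases hp : n.Prime
      · rw [if_pos hp, if_neg (not_not.2 hp)]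
        by_cases hm : n ≡ c' [MOD Q]
        · rw [if_pos hm, if_pos ((hiff n).2 hm), ArithmeticFunction.vonMangoldt_apply_prime hp,
            sub_self]
        · rw [if_neg hm, if_neg (fun h => hm ((hiff n).1 h)), sub_self]
      · rw [if_neg hp, if_pos hp, ite_self, sub_zero]
    have h5 : 0 ≤ Ψ - T y := by
      rw [h4]
      refine sum_nonneg fun n _ => ?_
      split_ifs
      · exact ArithmeticFunction.vonMangoldt_nonneg
      · exact le_rfl
    have h6 : Ψ - T y ≤ 2 * Real.sqrt X * ℓ := by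
      rw [h4]
      refine le_trans (sum_le_sum fun n _ => ?_) (pp X y (by omega) hy)
      split_ifs
      · exact le_rfl
      · exact ArithmeticFunction.vonMangoldt_nonneg
    rw [abs_le] at h3 ⊢
    constructor <;> linarith [h3.1, h3.2]
  -- the two sums
  have e1 : ∑ n ∈ (Ioc u v).filter (fun n => (Q : ℤ) ∣ n - c), lam n = T v.toNat - T u.toNat := by
    rw [sum_filter, tele (fun n => if (Q : ℤ) ∣ n - c then lam n else 0) (fun n hn => by
      have : lam n = 0 := by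
        unfold lam
        rw [if_neg (by omega)]
      simp only [this, ite_self]) u v huv]
  have e2 : ∑ n ∈ Ioc u v, pos n = (v.toNat : ℝ) - (u.toNat : ℝ) := by
    rw [tele pos (fun n hn => by
      unfold pos
      rw [if_neg (by omega)]) u v huv]
    have h3 : ∀ y : ℕ, ∑ n ∈ Icc 1 y, pos (n : ℤ) = y := by
      intro y
      rw [sum_congr rfl (g := fun _ => (1 : ℝ))]
      · simp
      · intro n hn
        rw [mem_Icc] at hn
        unfold pos
        rw [if_pos (by omega)]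
    rw [h3, h3]
  rw [e1, e2]
  have k1 := key v.toNat (by omega)
  have k2 := key u.toNat (by omega)
  have e3 : T v.toNat - T u.toNat - 1 / (Nat.totient Q : ℝ) * ((v.toNat : ℝ) - (u.toNat : ℝ)) =
      (T v.toNat - (v.toNat : ℝ) / (Nat.totient Q : ℝ)) -
        (T u.toNat - (u.toNat : ℝ) / (Nat.totient Q : ℝ)) := by ring
  rw [e3]
  refine (abs_sub _ _).trans ?_
  have h7 : X / ℓ ^ (A + 1) ≤ 1 / 4 * (X / ℓ ^ A) := by
    rw [pow_succ, mul_comm (1 / 4 : ℝ), div_mul_eq_mul_div, div_le_div_iff₀ (by positivity)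
      (by positivity)]
    have h8 : 0 ≤ (X : ℝ) * ℓ ^ A := by positivity
    nlinarith
  have h8 : 2 * Real.sqrt X * ℓ ≤ 1 / 4 * (X / ℓ ^ A) := by
    have h9 : 8 * ℓ ^ (A + 1) ≤ Real.sqrt X := hX1
    have h10 : Real.sqrt X * Real.sqrt X = X := Real.mul_self_sqrt (by linarith)
    have h11 : 0 < Real.sqrt X := Real.sqrt_pos.2 (by linarith)
    rw [mul_comm (1 / 4 : ℝ), div_mul_eq_mul_div, le_div_iff₀ (by positivity)]
    calc 2 * Real.sqrt X * ℓ * ℓ ^ A = 2 * Real.sqrt X * ℓ ^ (A + 1) := by ring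
      _ = 1 / 4 * (Real.sqrt X * (8 * ℓ ^ (A + 1))) := by ring
      _ ≤ 1 / 4 * (Real.sqrt X * Real.sqrt X) := by gcongr
      _ = X * (1 / 4) := by rw [h10]; ring
  linarith

end Pool.Agent.N75.DC
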